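import Pool.Agent.Y766.R9.Stm
import Pool.Agent.H505R2.DivB

/-!
The first moment of the zeta function over a proper generalised arithmetic progression of heights,
from the approximation by a partial sum and the mean bound for the kernels.
-/

set_option autoImplicit false

open Finset

namespace Pool.Agent.Z864.R9

open Pool.Agent.Y766 (ProperGAP)
open Pool.Agent.Y766.R9

/-- `exp (i u)` -/
noncomputable def ee (u : ℝ) : ℂ := Complex.exp ((u : ℂ) * Complex.I)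

lemma ee_add (u v : ℝ) : ee (u + v) = ee u * ee v := by
  unfold ee
  rw [← Complex.exp_add]
  congr 1
  push_cast
  ring

lemma norm_ee (u : ℝ) : ‖ee u‖ = 1 := Complex.norm_exp_ofReal_mul_I u

lemma ee_zero : ee 0 = 1 := by
  unfold ee; simp

lemma conj_ee (u : ℝ) : (starRingEnd ℂ) (ee u) = ee (-u) := by
  unfold ee
  rw [← Complex.exp_conj, map_mul, Complex.conj_ofReal, Complex.conj_I]
  congr 1
  push_cast
  ring

lemma ee_sum {ι : Type} (s : Finset ι) (f : ι → ℝ) : ee (∑ i ∈ s, f i) = ∏ i ∈ s, ee (f i) := by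
  unfold ee
  rw [Complex.ofReal_sum, Finset.sum_mul, Complex.exp_sum]

section kernel

variable {k : ℕ}

/-- linear combination of the steps -/
noncomputable def fr (Δ : Fin k → ℝ) (x : Fin k → ℕ) : ℝ := ∑ i, (x i : ℝ) * Δ i

/-- the box -/
def PL (L : Fin k → ℕ) : Finset (Fin k → ℕ) := Fintype.piFinset fun i => range (L i)

lemma mem_PL {L : Fin k → ℕ} {x : Fin k → ℕ} : x ∈ PL L ↔ ∀ i, x i < L i := by
  unfold PL
  rw [Fintype.mem_piFinset]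
  simp

lemma card_PL (L : Fin k → ℕ) : ((PL L).card : ℝ) = ∏ i, (L i : ℝ) := by
  unfold PL
  rw [Fintype.card_piFinset]
  push_cast
  simp

lemma sum_ee (Δ : Fin k → ℝ) (L : Fin k → ℕ) (l : ℝ) :
    ∑ x ∈ PL L, ee (fr Δ x * l) = ∏ i, ∑ j ∈ range (L i), ee (j * (Δ i * l)) := by
  unfold PL
  rw [Finset.prod_univ_sum]
  refine Finset.sum_congr rfl fun x _ => ?_
  rw [← ee_sum]
  congr 1
  unfold fr
  rw [Finset.sum_mul]
  exact Finset.sum_congr rfl fun i _ => by ring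

lemma kernel (Δ : Fin k → ℝ) (L : Fin k → ℕ) (hL : ∀ i, 1 ≤ L i) (tc : ℝ) (n : ℕ) :
    ∑ x ∈ PL L, ∑ y ∈ PL L, ee (-((tc + fr Δ x - fr Δ y) * Real.log n)) =
      ee (-(tc * Real.log n)) * (((∏ i, (L i : ℝ)) * WF Δ L n : ℝ) : ℂ) := by
  obtain ⟨A, hA⟩ : ∃ A, A = ∑ x ∈ PL L, ee (fr Δ x * Real.log n) := ⟨_, rfl⟩
  have h1 : ∑ x ∈ PL L, ∑ y ∈ PL L, ee (-((tc + fr Δ x - fr Δ y) * Real.log n)) =
      ee (-(tc * Real.log n)) * (A * (starRingEnd ℂ) A) := by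
    rw [hA, map_sum, Finset.sum_mul_sum, Finset.sum_comm, Finset.mul_sum]
    refine Finset.sum_congr rfl fun y _ => ?_
    rw [Finset.mul_sum]
    refine Finset.sum_congr rfl fun x _ => ?_
    rw [conj_ee, ← ee_add, ← ee_add]
    congr 1
    ring
  rw [h1, Complex.mul_conj, Complex.normSq_eq_norm_sq]
  congr 2
  rw [hA, sum_ee, norm_prod, ← Finset.prod_pow]
  unfold WF
  rw [← Finset.prod_mul_distrib]
  refine Finset.prod_congr rfl fun i _ => ?_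
  have hi : (L i : ℝ) ≠ 0 := by
    have := hL i
    positivity
  rw [mul_div_cancel₀ _ hi]
  rfl

lemma WF_one (Δ : Fin k → ℝ) (L : Fin k → ℕ) (hL : ∀ i, 1 ≤ L i) :
    WF Δ L 1 = ∏ i, (L i : ℝ) := by
  unfold WF
  refine Finset.prod_congr rfl fun i _ => ?_
  have hi : (L i : ℝ) ≠ 0 := by
    have := hL i
    positivity
  have h1 : ∑ j ∈ range (L i), Complex.exp (((j * (Δ i * Real.log (1 : ℕ)) : ℝ) : ℂ) * Complex.I) =
      (L i : ℂ) := by
    simp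
  rw [h1, Complex.norm_natCast]
  field_simp

lemma WF_nonneg (Δ : Fin k → ℝ) (L : Fin k → ℕ) (n : ℕ) : 0 ≤ WF Δ L n := by
  unfold WF
  exact Finset.prod_nonneg fun i _ => by positivity

end kernel

/-! ### Dirichlet polynomials -/

/-- `n ^ (-1/2)` -/
noncomputable def aa (n : ℕ) : ℝ := (n : ℝ) ^ (-(1 / 2) : ℝ)

lemma aa_nonneg (n : ℕ) : 0 ≤ aa n := by unfold aa; positivity

lemma aa_mul (m n : ℕ) : aa (m * n) = aa m * aa n := by
  unfold aa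
  push_cast
  rw [Real.mul_rpow (by positivity) (by positivity)]

lemma cpow_eq {n : ℕ} (hn : n ≠ 0) (t : ℝ) :
    (n : ℂ) ^ (-(1 / 2 + t * Complex.I)) = (aa n : ℂ) * ee (-(t * Real.log n)) := by
  have hn0 : (n : ℂ) ≠ 0 := Nat.cast_ne_zero.2 hn
  have hn1 : (0 : ℝ) < n := by exact_mod_cast Nat.pos_of_ne_zero hn
  rw [Complex.cpow_def_of_ne_zero hn0, ← Complex.natCast_log]
  unfold aa ee
  rw [Real.rpow_def_of_pos hn1, Complex.ofReal_exp, ← Complex.exp_add]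
  congr 1
  push_cast
  ring

/-- the mollifier -/
noncomputable def MM (y : ℕ) (t : ℝ) : ℂ :=
  ∑ l ∈ Icc 1 y, ((ArithmeticFunction.moebius l : ℤ) : ℂ) * (l : ℂ) ^ (-(1 / 2 + t * Complex.I))

lemma sum_aa (y : ℕ) : ∑ l ∈ Icc 1 y, aa l ≤ 2 * Real.sqrt y := by
  induction y with
  | zero => simp
  | succ y ih =>
    rw [Finset.sum_Icc_succ_top (by omega)]
    have h1 : aa (y + 1) = 1 / Real.sqrt ((y : ℝ) + 1) := by
      unfold aa
      rw [Real.rpow_neg (by positivity), ← Real.sqrt_eq_rpow]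
      push_cast
      rw [one_div]
    rw [h1]
    have h2 : 0 < Real.sqrt ((y : ℝ) + 1) := Real.sqrt_pos.2 (by positivity)
    have h3 : 0 ≤ Real.sqrt (y : ℝ) := Real.sqrt_nonneg _
    have h4 := Real.sq_sqrt (by positivity : (0 : ℝ) ≤ (y : ℝ) + 1)
    have h5 := Real.sq_sqrt (by positivity : (0 : ℝ) ≤ (y : ℝ))
    have h6 : Real.sqrt (y : ℝ) ≤ Real.sqrt ((y : ℝ) + 1) := Real.sqrt_le_sqrt (by linarith)
    have h7 : 1 / Real.sqrt ((y : ℝ) + 1) ≤ 2 * (Real.sqrt ((y : ℝ) + 1) - Real.sqrt y) := by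
      rw [div_le_iff₀ h2]
      nlinarith
    push_cast
    linarith

lemma norm_MM (y : ℕ) (t : ℝ) : ‖MM y t‖ ≤ 2 * Real.sqrt y := by
  refine (norm_sum_le _ _).trans (le_trans (Finset.sum_le_sum fun l hl => ?_) (sum_aa y))
  rw [Finset.mem_Icc] at hl
  rw [norm_mul, cpow_eq (by omega), norm_mul, norm_ee, mul_one, Complex.norm_real,
    Real.norm_of_nonneg (aa_nonneg l), Complex.norm_intCast]
  have h1 : |((ArithmeticFunction.moebius l : ℤ) : ℝ)| ≤ 1 := by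
    exact_mod_cast ArithmeticFunction.abs_moebius_le_one
  have := aa_nonneg l
  nlinarith

/-- the coefficients of the product -/
def cc (N y m : ℕ) : ℤ :=
  ∑ q ∈ (Icc 1 N ×ˢ Icc 1 y).filter (fun q => q.1 * q.2 = m), ArithmeticFunction.moebius q.2

lemma dirichlet (N y : ℕ) (t : ℝ) :
    (∑ n ∈ Icc 1 N, (n : ℂ) ^ (-(1 / 2 + t * Complex.I))) * MM y t =
      ∑ m ∈ Icc 1 (N * y), (cc N y m : ℂ) * (aa m : ℂ) * ee (-(t * Real.log m)) := by
  unfold MM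
  rw [Finset.sum_mul_sum, ← Finset.sum_product',
    ← Finset.sum_fiberwise_of_maps_to (s := Icc 1 N ×ˢ Icc 1 y) (t := Icc 1 (N * y))
      (g := fun q => q.1 * q.2) (fun q hq => by
        rw [Finset.mem_product, Finset.mem_Icc, Finset.mem_Icc] at hq
        rw [Finset.mem_Icc]
        exact ⟨Nat.mul_pos hq.1.1 hq.2.1, Nat.mul_le_mul hq.1.2 hq.2.2⟩)]
  refine Finset.sum_congr rfl fun m _ => ?_
  unfold cc
  rw [Int.cast_sum, Finset.sum_mul, Finset.sum_mul]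
  refine Finset.sum_congr rfl fun q hq => ?_
  rw [Finset.mem_filter, Finset.mem_product, Finset.mem_Icc, Finset.mem_Icc] at hq
  obtain ⟨⟨h1, h2⟩, h3⟩ := hq
  rw [cpow_eq (by omega), cpow_eq (by omega), ← h3, aa_mul]
  have h4 : Real.log ((q.1 * q.2 : ℕ) : ℝ) = Real.log q.1 + Real.log q.2 := by
    push_cast
    exact Real.log_mul (by have := h1.1; positivity) (by have := h2.1; positivity)
  rw [h4, mul_add, neg_add, ee_add]
  push_cast
  ring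

lemma cc_subset (N y m : ℕ) (hm : m ≠ 0) :
    (Icc 1 N ×ˢ Icc 1 y).filter (fun q => q.1 * q.2 = m) ⊆ m.divisorsAntidiagonal := by
  intro q hq
  rw [Finset.mem_filter] at hq
  rw [Nat.mem_divisorsAntidiagonal]
  exact ⟨hq.2, hm⟩

lemma abs_cc (N y m : ℕ) (hm : m ≠ 0) : |(cc N y m : ℝ)| ≤ (m.divisors.card : ℝ) := by
  unfold cc
  rw [Int.cast_sum]
  refine (Finset.abs_sum_le_sum_abs _ _).trans ?_
  refine (Finset.sum_le_sum (g := fun _ => (1 : ℝ)) fun q _ => ?_).trans ?_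
  · exact_mod_cast ArithmeticFunction.abs_moebius_le_one
  · rw [Finset.sum_const, nsmul_eq_mul, mul_one]
    have h1 : ((Icc 1 N ×ˢ Icc 1 y).filter (fun q => q.1 * q.2 = m)).card ≤ m.divisors.card := by
      refine Finset.card_le_card_of_injOn Prod.fst ?_ ?_
      · intro q hq
        have hq' := (Finset.mem_filter.1 (Finset.mem_coe.1 hq)).2
        exact Finset.mem_coe.2 (Nat.mem_divisors.2 ⟨⟨q.2, hq'.symm⟩, hm⟩)
      · intro q hq r hr hqr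
        have hq' := (Finset.mem_filter.1 (Finset.mem_coe.1 hq)).2
        have hr' := (Finset.mem_filter.1 (Finset.mem_coe.1 hr)).2
        have h0 : q.1 ≠ 0 := by
          rintro h
          rw [h, zero_mul] at hq'
          exact hm hq'.symm
        refine Prod.ext hqr ?_
        have h2 : q.1 * q.2 = q.1 * r.2 := by
          rw [hq']
          change q.1 = r.1 at hqr
          rw [hqr]
          exact hr'.symm
        exact Nat.eq_of_mul_eq_mul_left (Nat.pos_of_ne_zero h0) h2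
    exact_mod_cast h1

lemma cc_small {N y m : ℕ} (hm : 1 ≤ m) (hmy : m ≤ y) (hyN : y ≤ N) :
    cc N y m = if m = 1 then 1 else 0 := by
  have h1 : (Icc 1 N ×ˢ Icc 1 y).filter (fun q => q.1 * q.2 = m) = m.divisorsAntidiagonal := by
    apply Finset.Subset.antisymm (cc_subset N y m (by omega))
    intro q hq
    rw [Nat.mem_divisorsAntidiagonal] at hq
    have h2 : q.1 ≠ 0 := by
      rintro h
      rw [h, zero_mul] at hq
      omega
    have h3 : q.2 ≠ 0 := by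
      rintro h
      rw [h, mul_zero] at hq
      omega
    have h4 : q.1 ≤ m := Nat.le_of_dvd (by omega) ⟨q.2, hq.1.symm⟩
    have h5 : q.2 ≤ m := Nat.le_of_dvd (by omega) ⟨q.1, by rw [mul_comm]; exact hq.1.symm⟩
    rw [Finset.mem_filter, Finset.mem_product, Finset.mem_Icc, Finset.mem_Icc]
    exact ⟨⟨⟨by omega, by omega⟩, by omega, by omega⟩, hq.1⟩
  unfold cc
  rw [h1]
  have h2 := congrArg (fun f : ArithmeticFunction ℤ => f m)
    ArithmeticFunction.coe_zeta_mul_moebius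
  simp only [ArithmeticFunction.mul_apply, ArithmeticFunction.one_apply] at h2
  rw [← h2]
  refine Finset.sum_congr rfl fun q hq => ?_
  rw [Nat.mem_divisorsAntidiagonal] at hq
  have h3 : q.1 ≠ 0 := by
    rintro h
    rw [h, zero_mul] at hq
    omega
  rw [ArithmeticFunction.natCoe_apply, ArithmeticFunction.zeta_apply_ne h3]
  simp


/-! ### the moment -/

/-- the point of a pair -/
noncomputable def tp {k : ℕ} (Δ : Fin k → ℝ) (tc : ℝ) (x z : Fin k → ℕ) : ℝ :=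
  tc + fr Δ x - fr Δ z

lemma lower {k : ℕ} (Δ : Fin k → ℝ) (L : Fin k → ℕ) (hL : ∀ i, 1 ≤ L i) (tc : ℝ) (N y : ℕ)
    (hy : 1 ≤ y) (hyN : y ≤ N) (Er : ℝ)
    (hz : ∀ x ∈ PL L, ∀ z ∈ PL L, ‖riemannZeta (1 / 2 + (tp Δ tc x z : ℝ) * Complex.I) -
      ∑ n ∈ Icc 1 N, (n : ℂ) ^ (-(1 / 2 + (tp Δ tc x z : ℝ) * Complex.I))‖ ≤ Er)
    (B : ℝ) (hB : ∑ m ∈ Ioc y (N * y), (m.divisors.card : ℝ) * aa m * WF Δ L m ≤ B) :
    (∏ i, (L i : ℝ)) * (∏ i, (L i : ℝ)) ≤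
      ‖∑ x ∈ PL L, ∑ z ∈ PL L, riemannZeta (1 / 2 + (tp Δ tc x z : ℝ) * Complex.I) *
        MM y (tp Δ tc x z)‖ + (∏ i, (L i : ℝ)) * B +
      (∏ i, (L i : ℝ)) * (∏ i, (L i : ℝ)) * (Er * (2 * Real.sqrt y)) := by
  obtain ⟨Lam, hLam⟩ : ∃ Lam, Lam = ∏ i, (L i : ℝ) := ⟨_, rfl⟩
  have hLam0 : 0 ≤ Lam := by rw [hLam]; positivity
  rw [← hLam]
  obtain ⟨g, hg⟩ : ∃ g : ℕ → ℂ, g = fun m => (cc N y m : ℂ) * (aa m : ℂ) *
    (ee (-(tc * Real.log m)) * ((Lam * WF Δ L m : ℝ) : ℂ)) := ⟨_, rfl⟩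
  -- the error
  have h1 : ‖∑ x ∈ PL L, ∑ z ∈ PL L, (riemannZeta (1 / 2 + (tp Δ tc x z : ℝ) * Complex.I) -
      ∑ n ∈ Icc 1 N, (n : ℂ) ^ (-(1 / 2 + (tp Δ tc x z : ℝ) * Complex.I))) *
        MM y (tp Δ tc x z)‖ ≤ Lam * Lam * (Er * (2 * Real.sqrt y)) := by
    refine (norm_sum_le_of_le _ (fun x hx => norm_sum_le_of_le _ (fun z hz' => ?_ :
      ∀ z ∈ PL L, _ ≤ Er * (2 * Real.sqrt y)))).trans (le_of_eq ?_)
    · rw [norm_mul]
      exact mul_le_mul (hz x hx z hz') (norm_MM y _) (norm_nonneg _)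
        ((norm_nonneg _).trans (hz x hx z hz'))
    · rw [Finset.sum_const, Finset.sum_const, nsmul_eq_mul, nsmul_eq_mul, card_PL, ← hLam]
      ring
  -- the main part
  have h2 : ∑ x ∈ PL L, ∑ z ∈ PL L,
      (∑ n ∈ Icc 1 N, (n : ℂ) ^ (-(1 / 2 + (tp Δ tc x z : ℝ) * Complex.I))) *
        MM y (tp Δ tc x z) = ∑ m ∈ Icc 1 (N * y), g m := by
    simp only [dirichlet]
    have e1 : ∀ x ∈ PL L, ∑ z ∈ PL L, ∑ m ∈ Icc 1 (N * y), (cc N y m : ℂ) * (aa m : ℂ) *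
        ee (-(tp Δ tc x z * Real.log m)) = ∑ m ∈ Icc 1 (N * y), ∑ z ∈ PL L,
          (cc N y m : ℂ) * (aa m : ℂ) * ee (-(tp Δ tc x z * Real.log m)) := fun x _ =>
      Finset.sum_comm
    rw [Finset.sum_congr rfl e1, Finset.sum_comm]
    refine Finset.sum_congr rfl fun m _ => ?_
    rw [hg]
    simp only
    rw [hLam, ← kernel Δ L hL tc m, Finset.mul_sum]
    refine Finset.sum_congr rfl fun x _ => ?_
    rw [Finset.mul_sum]
    rfl
  have h3 : ∑ m ∈ Icc 1 (N * y), g m = g 1 + ∑ m ∈ Ioc y (N * y), g m := by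
    have e1 : Icc 1 (N * y) = Ioc 0 (N * y) := by
      ext m; rw [Finset.mem_Icc, Finset.mem_Ioc]; omega
    rw [e1, ← Finset.sum_Ioc_consecutive g (Nat.zero_le y)
      (Nat.le_mul_of_pos_left y (by omega))]
    congr 1
    refine Finset.sum_eq_single_of_mem 1 (Finset.mem_Ioc.2 ⟨by omega, hy⟩) fun m hm hm1 => ?_
    rw [Finset.mem_Ioc] at hm
    rw [hg]
    simp only
    rw [cc_small (by omega) hm.2 hyN, if_neg hm1]
    simp
  have h4 : g 1 = ((Lam * Lam : ℝ) : ℂ) := by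
    rw [hg]
    simp only
    rw [cc_small le_rfl hy hyN, if_pos rfl, WF_one Δ L hL, ← hLam]
    have e1 : aa 1 = 1 := by unfold aa; simp
    have e2 : ee (-(tc * Real.log ((1 : ℕ) : ℝ))) = 1 := by
      rw [Nat.cast_one, Real.log_one, mul_zero, neg_zero, ee_zero]
    rw [e1, e2]
    simp
  have h5 : ‖∑ m ∈ Ioc y (N * y), g m‖ ≤ Lam * B := by
    refine (norm_sum_le _ _).trans (le_trans ?_ (mul_le_mul_of_nonneg_left hB hLam0))
    rw [Finset.mul_sum]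
    refine Finset.sum_le_sum fun m hm => ?_
    rw [Finset.mem_Ioc] at hm
    rw [hg]
    simp only
    rw [norm_mul, norm_mul, norm_mul, norm_ee, one_mul, Complex.norm_real, Complex.norm_real,
      Complex.norm_intCast, Real.norm_of_nonneg (aa_nonneg m),
      Real.norm_of_nonneg (mul_nonneg hLam0 (WF_nonneg Δ L m))]
    have e1 := abs_cc N y m (by omega)
    have e2 := aa_nonneg m
    have e3 := WF_nonneg Δ L m
    calc |(cc N y m : ℝ)| * aa m * (Lam * WF Δ L m)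
        ≤ (m.divisors.card : ℝ) * aa m * (Lam * WF Δ L m) :=
          mul_le_mul_of_nonneg_right (mul_le_mul_of_nonneg_right e1 e2) (by positivity)
      _ = Lam * ((m.divisors.card : ℝ) * aa m * WF Δ L m) := by ring
  have h6 : ∑ x ∈ PL L, ∑ z ∈ PL L, riemannZeta (1 / 2 + (tp Δ tc x z : ℝ) * Complex.I) *
      MM y (tp Δ tc x z) = ((Lam * Lam : ℝ) : ℂ) + ∑ m ∈ Ioc y (N * y), g m +
      ∑ x ∈ PL L, ∑ z ∈ PL L, (riemannZeta (1 / 2 + (tp Δ tc x z : ℝ) * Complex.I) -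
      ∑ n ∈ Icc 1 N, (n : ℂ) ^ (-(1 / 2 + (tp Δ tc x z : ℝ) * Complex.I))) *
        MM y (tp Δ tc x z) := by
    rw [← h4, ← h3, ← h2, ← Finset.sum_add_distrib]
    refine Finset.sum_congr rfl fun x _ => ?_
    rw [← Finset.sum_add_distrib]
    refine Finset.sum_congr rfl fun z _ => ?_
    ring
  obtain ⟨S, hS⟩ : ∃ S, S = ∑ x ∈ PL L, ∑ z ∈ PL L,
    riemannZeta (1 / 2 + (tp Δ tc x z : ℝ) * Complex.I) * MM y (tp Δ tc x z) := ⟨_, rfl⟩
  obtain ⟨E1, hE1⟩ : ∃ E1, E1 = ∑ m ∈ Ioc y (N * y), g m := ⟨_, rfl⟩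
  obtain ⟨E2, hE2⟩ : ∃ E2, E2 = ∑ x ∈ PL L, ∑ z ∈ PL L,
    (riemannZeta (1 / 2 + (tp Δ tc x z : ℝ) * Complex.I) -
      ∑ n ∈ Icc 1 N, (n : ℂ) ^ (-(1 / 2 + (tp Δ tc x z : ℝ) * Complex.I))) *
        MM y (tp Δ tc x z) := ⟨_, rfl⟩
  rw [← hS, ← hE1, ← hE2] at h6
  rw [← hE1] at h5
  rw [← hE2] at h1
  rw [← hS]
  have h7 : ((Lam * Lam : ℝ) : ℂ) = S - E1 - E2 := by rw [h6]; ring
  have h8 : ‖((Lam * Lam : ℝ) : ℂ)‖ = Lam * Lam := by
    rw [Complex.norm_real, Real.norm_of_nonneg (mul_nonneg hLam0 hLam0)]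
  have h9 : Lam * Lam ≤ ‖S‖ + ‖E1‖ + ‖E2‖ := by
    calc Lam * Lam = ‖((Lam * Lam : ℝ) : ℂ)‖ := h8.symm
      _ = ‖S - E1 - E2‖ := by rw [h7]
      _ ≤ ‖S‖ + ‖E1‖ + ‖E2‖ := by
        refine (norm_sub_le _ _).trans ?_
        have := norm_sub_le S E1
        linarith
  linarith

/-- dyadic decomposition -/
lemma dyadic (f : ℕ → ℝ) (y : ℕ) (I : ℕ) :
    ∑ m ∈ Ioc y (2 ^ I * y), f m =
      ∑ i ∈ range I, ∑ m ∈ Ioc (2 ^ i * y) (2 * (2 ^ i * y)), f m := by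
  induction I with
  | zero => simp
  | succ I ih =>
    rw [Finset.sum_range_succ, ← ih]
    have e : 2 ^ (I + 1) * y = 2 * (2 ^ I * y) := by ring
    rw [e]
    refine (Finset.sum_Ioc_consecutive f ?_ ?_).symm
    · exact Nat.le_mul_of_pos_left y (by positivity)
    · omega

lemma dyadic_le {f : ℕ → ℝ} (hf : ∀ m, 0 ≤ f m) (y N : ℕ) (hN : N ≠ 0) {b : ℝ}
    (h : ∀ i, 2 ^ i ≤ N → ∑ m ∈ Ioc (2 ^ i * y) (2 * (2 ^ i * y)), f m ≤ b) :
    ∑ m ∈ Ioc y (N * y), f m ≤ ((Nat.log 2 N + 1 : ℕ) : ℝ) * b := by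
  have h1 : Ioc y (N * y) ⊆ Ioc y (2 ^ (Nat.log 2 N + 1) * y) := by
    refine Finset.Ioc_subset_Ioc_right (Nat.mul_le_mul_right _ ?_)
    exact (Nat.lt_pow_succ_log_self (by norm_num) N).le
  refine (Finset.sum_le_sum_of_subset_of_nonneg h1 fun m _ _ => hf m).trans ?_
  rw [dyadic]
  refine (Finset.sum_le_sum (g := fun _ => b) fun i hi => ?_).trans ?_
  · apply h
    rw [Finset.mem_range] at hi
    exact (Nat.pow_le_pow_right (by norm_num) (by omega)).trans (Nat.pow_log_le_self 2 hN)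
  · rw [Finset.sum_const, Finset.card_range, nsmul_eq_mul]

lemma aa_le {K m : ℕ} (hK : 1 ≤ K) (hm : K < m) : aa m ≤ aa K := by
  unfold aa
  exact Real.rpow_le_rpow_of_nonpos (by exact_mod_cast hK) (by exact_mod_cast hm.le) (by norm_num)

lemma block {k : ℕ} (Δ : Fin k → ℝ) (L : Fin k → ℕ) {K : ℕ} (hK : 1 ≤ K) {b : ℝ}
    (h : ∑ n ∈ Ioc K (2 * K), WF Δ L n ≤ b * (K : ℝ) ^ (1 / 2 : ℝ)) :
    ∑ m ∈ Ioc K (2 * K), aa m * WF Δ L m ≤ b := by
  have hK0 : (0 : ℝ) < K := by exact_mod_cast hK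
  have h1 : ∑ m ∈ Ioc K (2 * K), aa m * WF Δ L m ≤ aa K * ∑ m ∈ Ioc K (2 * K), WF Δ L m := by
    rw [Finset.mul_sum]
    refine Finset.sum_le_sum fun m hm => ?_
    rw [Finset.mem_Ioc] at hm
    exact mul_le_mul_of_nonneg_right (aa_le hK hm.1) (WF_nonneg Δ L m)
  refine h1.trans ((mul_le_mul_of_nonneg_left h (aa_nonneg K)).trans (le_of_eq ?_))
  unfold aa
  have h2 : (K : ℝ) ^ (-(1 / 2) : ℝ) * (K : ℝ) ^ (1 / 2 : ℝ) = 1 := by
    rw [← Real.rpow_add hK0]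
    norm_num
  calc (K : ℝ) ^ (-(1 / 2) : ℝ) * (b * (K : ℝ) ^ (1 / 2 : ℝ)) =
        b * ((K : ℝ) ^ (-(1 / 2) : ℝ) * (K : ℝ) ^ (1 / 2 : ℝ)) := by ring
    _ = b := by rw [h2, mul_one]

lemma big (A : ℝ) {a : ℝ} (ha : 0 < a) : ∃ C : ℝ, 1 ≤ C ∧ ∀ T : ℝ, C ≤ T → A ≤ T ^ a := by
  obtain ⟨C, hC⟩ := Filter.eventually_atTop.1 ((tendsto_rpow_atTop ha).eventually_ge_atTop A)
  exact ⟨max C 1, le_max_right _ _, fun T hT => hC T ((le_max_left _ _).trans hT)⟩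




/-! ### the progression -/

lemma gap_param {k : ℕ} {F : Finset ℝ} (hF : ProperGAP k F) (h1 : 1 ≤ F.card) :
    ∃ (t₀ : ℝ) (Δ : Fin k → ℝ) (J : Fin k → ℕ), (∀ i, 1 ≤ J i) ∧
      (∀ j ∈ PL J, t₀ + fr Δ j ∈ F) ∧
      (∀ j ∈ PL J, ∀ j' ∈ PL J, t₀ + fr Δ j = t₀ + fr Δ j' → j = j') ∧
      (F.card : ℝ) = ∏ i, (J i : ℝ) := by
  classical
  obtain ⟨t₀, Δ, J, hmem, hcard⟩ := hF
  have hJ : ∀ i, 1 ≤ J i := by
    intro i
    by_contra hi
    have h0 : J i = 0 := by omega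
    have h2 : ∏ i, J i = 0 := prod_eq_zero (mem_univ i) h0
    omega
  have himg : F = (PL J).image (fun j => t₀ + fr Δ j) := by
    ext t
    rw [hmem, mem_image]
    constructor
    · rintro ⟨j, hj, rfl⟩
      exact ⟨j, mem_PL.2 hj, rfl⟩
    · rintro ⟨j, hj, rfl⟩
      exact ⟨j, mem_PL.1 hj, rfl⟩
  have hPc : (PL J).card = ∏ i, J i := by
    unfold PL
    rw [Fintype.card_piFinset]; simp
  have hinj : Set.InjOn (fun j => t₀ + fr Δ j) (PL J : Set (Fin k → ℕ)) := by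
    rw [← card_image_iff, ← himg, hcard, hPc]
  refine ⟨t₀, Δ, J, hJ, ?_, ?_, ?_⟩
  · intro j hj
    rw [himg]
    exact mem_image_of_mem _ hj
  · intro j hj j' hj' h
    exact hinj hj hj' h
  · rw [hcard]
    push_cast
    rfl

lemma sepz {k : ℕ} {F : Finset ℝ} {t₀ : ℝ} {Δ : Fin k → ℝ} {J L : Fin k → ℕ} {D : ℝ}
    (hin : ∀ j ∈ PL J, t₀ + fr Δ j ∈ F)
    (hinj : ∀ j ∈ PL J, ∀ j' ∈ PL J, t₀ + fr Δ j = t₀ + fr Δ j' → j = j')
    (hLJ : ∀ i, L i ≤ J i)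
    (hsep : ∀ t ∈ F, ∀ u ∈ F, t ≠ u → 1 ≤ |t - u| ∧ |t - u| ≤ D) : SepZ Δ L D := by
  intro j hj hj0
  obtain ⟨p, hp⟩ : ∃ p : Fin k → ℕ, p = fun i => (j i).toNat := ⟨_, rfl⟩
  obtain ⟨q, hq⟩ : ∃ q : Fin k → ℕ, q = fun i => (-j i).toNat := ⟨_, rfl⟩
  have hpi : ∀ i, p i = (j i).toNat := fun i => by rw [hp]
  have hqi : ∀ i, q i = (-j i).toNat := fun i => by rw [hq]
  have hpP : p ∈ PL J := mem_PL.2 fun i => by
    have h1 := hj i
    rw [abs_lt] at h1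
    have h2 := hLJ i
    rw [hpi]
    omega
  have hqP : q ∈ PL J := mem_PL.2 fun i => by
    have h1 := hj i
    rw [abs_lt] at h1
    have h2 := hLJ i
    rw [hqi]
    omega
  have hne : p ≠ q := by
    intro h
    apply hj0
    funext i
    have h1 := congrFun h i
    rw [hpi, hqi] at h1
    simp only [Pi.zero_apply]
    omega
  have h1 : ∑ i, (j i : ℝ) * Δ i = (t₀ + fr Δ p) - (t₀ + fr Δ q) := by
    unfold fr
    rw [add_sub_add_left_eq_sub, ← Finset.sum_sub_distrib]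
    refine Finset.sum_congr rfl fun i _ => ?_
    rw [← sub_mul]
    congr 1
    have h2 : j i = (p i : ℤ) - (q i : ℤ) := by rw [hpi, hqi]; omega
    rw [h2]
    push_cast
    ring
  rw [h1]
  exact hsep _ (hin p hpP) _ (hin q hqP) fun h => hne (hinj p hpP q hqP h)

lemma tp_eq {k : ℕ} (Δ : Fin k → ℝ) (t₀ : ℝ) {L : Fin k → ℕ} (x : Fin k → ℕ) {z : Fin k → ℕ}
    (hz : z ∈ PL L) :
    tp Δ (t₀ + fr Δ (fun i => L i - 1)) x z = t₀ + fr Δ (fun i => x i + (L i - 1 - z i)) := by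
  have h0 : fr Δ (fun i => L i - 1) + fr Δ x - fr Δ z = fr Δ (fun i => x i + (L i - 1 - z i)) := by
    unfold fr
    rw [← sum_add_distrib, ← sum_sub_distrib]
    refine sum_congr rfl fun i _ => ?_
    have h1 := mem_PL.1 hz i
    have h3 : ((x i + (L i - 1 - z i) : ℕ) : ℝ) = (x i : ℝ) + (((L i - 1 : ℕ) : ℝ) - (z i : ℝ)) := by
      rw [Nat.cast_add, Nat.cast_sub (by omega)]
    rw [h3]
    ring
  unfold tp
  rw [← h0]
  ring

lemma tp_mem {k : ℕ} {F : Finset ℝ} {t₀ : ℝ} {Δ : Fin k → ℝ} {J L : Fin k → ℕ}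
    (hin : ∀ j ∈ PL J, t₀ + fr Δ j ∈ F) (hLJ : ∀ i, 2 * L i - 1 ≤ J i)
    {x z : Fin k → ℕ} (hx : x ∈ PL L) (hz : z ∈ PL L) :
    tp Δ (t₀ + fr Δ (fun i => L i - 1)) x z ∈ F := by
  rw [tp_eq Δ t₀ x hz]
  apply hin
  rw [mem_PL] at hx hz ⊢
  intro i
  have h1 := hx i
  have h2 := hz i
  have h3 := hLJ i
  omega

lemma upper {k : ℕ} {F : Finset ℝ} {t₀ : ℝ} {Δ : Fin k → ℝ} {J L : Fin k → ℕ}
    (hin : ∀ j ∈ PL J, t₀ + fr Δ j ∈ F)
    (hinj : ∀ j ∈ PL J, ∀ j' ∈ PL J, t₀ + fr Δ j = t₀ + fr Δ j' → j = j')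
    (hLJ : ∀ i, 2 * L i - 1 ≤ J i) (y : ℕ) :
    ‖∑ x ∈ PL L, ∑ z ∈ PL L,
      riemannZeta (1 / 2 + (tp Δ (t₀ + fr Δ (fun i => L i - 1)) x z : ℝ) * Complex.I) *
        MM y (tp Δ (t₀ + fr Δ (fun i => L i - 1)) x z)‖ ≤
      (∏ i, (L i : ℝ)) *
        (2 * Real.sqrt y * ∑ t ∈ F, ‖riemannZeta (1 / 2 + t * Complex.I)‖) := by
  classical
  rw [← card_PL, ← nsmul_eq_mul]
  refine (norm_sum_le _ _).trans (Finset.sum_le_card_nsmul _ _ _ fun x hx => ?_)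
  obtain ⟨f, hf⟩ : ∃ f : ℝ → ℝ, f = fun t => ‖riemannZeta (1 / 2 + (t : ℝ) * Complex.I)‖ :=
    ⟨_, rfl⟩
  obtain ⟨g, hg⟩ : ∃ g : (Fin k → ℕ) → ℝ,
    g = fun z => tp Δ (t₀ + fr Δ (fun i => L i - 1)) x z := ⟨_, rfl⟩
  have hgi : Set.InjOn g (PL L : Set (Fin k → ℕ)) := by
    intro z hz w hw hzw
    rw [hg] at hzw
    simp only at hzw
    have hz' : z ∈ PL L := Finset.mem_coe.1 hz
    have hw' : w ∈ PL L := Finset.mem_coe.1 hw
    rw [tp_eq Δ t₀ x hz', tp_eq Δ t₀ x hw'] at hzw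
    rw [mem_PL] at hx hz' hw'
    have h1 := hinj _ (mem_PL.2 fun i => by
      have h1 := hx i
      have h2 := hz' i
      have h3 := hLJ i
      omega) _ (mem_PL.2 fun i => by
      have h1 := hx i
      have h2 := hw' i
      have h3 := hLJ i
      omega) hzw
    funext i
    have h2 := congrFun h1 i
    have h3 := hz' i
    have h4 := hw' i
    omega
  have h1 : ∑ z ∈ PL L, f (g z) ≤ ∑ t ∈ F, f t := by
    rw [← Finset.sum_image (f := f) hgi]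
    refine Finset.sum_le_sum_of_subset_of_nonneg ?_ fun t _ _ => by rw [hf]; exact norm_nonneg _
    intro t ht
    rw [Finset.mem_image] at ht
    obtain ⟨z, hz, rfl⟩ := ht
    rw [hg]
    exact tp_mem hin hLJ hx hz
  have h2 : ‖∑ z ∈ PL L,
      riemannZeta (1 / 2 + (tp Δ (t₀ + fr Δ (fun i => L i - 1)) x z : ℝ) * Complex.I) *
        MM y (tp Δ (t₀ + fr Δ (fun i => L i - 1)) x z)‖ ≤
      ∑ z ∈ PL L, 2 * Real.sqrt y * f (g z) := by
    refine norm_sum_le_of_le _ fun z _ => ?_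
    rw [norm_mul, mul_comm, hf, hg]
    exact mul_le_mul_of_nonneg_right (norm_MM y _) (norm_nonneg _)
  rw [← Finset.mul_sum] at h2
  refine h2.trans (mul_le_mul_of_nonneg_left (h1.trans (le_of_eq (by rw [hf]))) (by positivity))

/-- the number of dyadic blocks -/
lemma nblocks {e T : ℝ} (he : 0 < e) (hT : 5 ≤ T) {N : ℕ} (hN0 : 1 ≤ N) (hN : (N : ℝ) ≤ 5 * T) :
    ((Nat.log 2 N + 1 : ℕ) : ℝ) ≤ (1 + 2 / e) * T ^ (2 * e) := by
  have hT0 : (0 : ℝ) < T := by linarith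
  have hN1 : (1 : ℝ) ≤ N := by exact_mod_cast hN0
  have h1 : ((2 : ℝ) ^ (Nat.log 2 N)) ≤ N := by exact_mod_cast Nat.pow_log_le_self 2 (by omega)
  have h2 : (Nat.log 2 N : ℝ) * Real.log 2 ≤ Real.log N := by
    rw [← Real.log_pow]
    exact Real.log_le_log (by positivity) h1
  have h3 : Real.log N ≤ (N : ℝ) ^ e / e := Real.log_le_rpow_div (by linarith) he
  have h4 : (N : ℝ) ^ e ≤ T ^ (2 * e) := by
    rw [Real.rpow_mul hT0.le]
    refine Real.rpow_le_rpow (by linarith) ?_ he.le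
    rw [Real.rpow_two]
    nlinarith
  have h5 : (1 / 2 : ℝ) ≤ Real.log 2 := by
    have := Real.log_two_gt_d9
    linarith
  have h6 : (0 : ℝ) ≤ (Nat.log 2 N : ℝ) := by positivity
  have h7 : (Nat.log 2 N : ℝ) * (1 / 2) ≤ T ^ (2 * e) / e :=
    calc (Nat.log 2 N : ℝ) * (1 / 2) ≤ (Nat.log 2 N : ℝ) * Real.log 2 :=
          mul_le_mul_of_nonneg_left h5 h6
      _ ≤ (N : ℝ) ^ e / e := h2.trans h3
      _ ≤ T ^ (2 * e) / e := div_le_div_of_nonneg_right h4 he.le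
  have h8 : (1 : ℝ) ≤ T ^ (2 * e) := Real.one_le_rpow (by linarith) (by positivity)
  push_cast
  have h9 : (1 + 2 / e) * T ^ (2 * e) = T ^ (2 * e) + 2 * (T ^ (2 * e) / e) := by
    field_simp
  rw [h9]
  linarith

lemma Bbound {k : ℕ} (Δ : Fin k → ℝ) (L : Fin k → ℕ) {e Ce T b0 : ℝ} (he : 0 < e) (hCe : 1 ≤ Ce)
    (hT : 5 ≤ T) {N y : ℕ} (hN0 : 1 ≤ N) (hN : (N : ℝ) ≤ 5 * T) (hy1 : 1 ≤ y)
    (hy : (y : ℝ) ≤ T ^ (1 / 2 : ℝ)) (hb0 : 0 ≤ b0)
    (hdiv : ∀ n : ℕ, n ≠ 0 → (n.divisors.card : ℝ) ≤ Ce * (n : ℝ) ^ e)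
    (hb : ∀ i, 2 ^ i ≤ N → ∑ n ∈ Ioc (2 ^ i * y) (2 * (2 ^ i * y)), WF Δ L n ≤
      b0 * ((2 ^ i * y : ℕ) : ℝ) ^ (1 / 2 : ℝ)) :
    ∑ m ∈ Ioc y (N * y), (m.divisors.card : ℝ) * aa m * WF Δ L m ≤
      (1 + 2 / e) * T ^ (2 * e) * (Ce * T ^ (3 * e) * b0) := by
  have hT0 : (0 : ℝ) < T := by linarith
  have h1 := dyadic_le (f := fun m => (m.divisors.card : ℝ) * aa m * WF Δ L m)
    (fun m => mul_nonneg (mul_nonneg (by positivity) (aa_nonneg m)) (WF_nonneg Δ L m)) y N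
    (by omega) (b := Ce * T ^ (3 * e) * b0) (fun i hi => by
      have hK : 1 ≤ 2 ^ i * y := Nat.one_le_iff_ne_zero.2 (by positivity)
      have h2 := block Δ L hK (hb i hi)
      have h3 : ∀ m ∈ Ioc (2 ^ i * y) (2 * (2 ^ i * y)),
          (m.divisors.card : ℝ) * aa m * WF Δ L m ≤ Ce * T ^ (3 * e) * (aa m * WF Δ L m) := by
        intro m hm
        rw [Finset.mem_Ioc] at hm
        have hm0 : m ≠ 0 := by omega
        have h4 : (m : ℝ) ≤ T ^ (3 : ℝ) := by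
          have e1 : (m : ℝ) ≤ 2 * ((N : ℝ) * y) := by
            have : m ≤ 2 * (N * y) := hm.2.trans (by
              have := Nat.mul_le_mul_right y hi
              omega)
            exact_mod_cast this
          have e2 : (N : ℝ) * y ≤ 5 * T * T ^ (1 / 2 : ℝ) :=
            mul_le_mul hN hy (by positivity) (by positivity)
          have e3 : T ^ (3 : ℝ) = T * T ^ (1 / 2 : ℝ) * (T * T ^ (1 / 2 : ℝ)) := by
            have e4 : T ^ (1 / 2 : ℝ) * T ^ (1 / 2 : ℝ) = T := by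
              rw [← Real.rpow_add hT0]; norm_num
            calc T ^ (3 : ℝ) = T ^ (3 : ℕ) := by
                  rw [← Real.rpow_natCast]; norm_num
              _ = T * T * T := by ring
              _ = T * T * (T ^ (1 / 2 : ℝ) * T ^ (1 / 2 : ℝ)) := by rw [e4]
              _ = _ := by ring
          have e5 : (2 : ℝ) ≤ T ^ (1 / 2 : ℝ) := by
            rw [← Real.sqrt_eq_rpow]
            exact (Real.le_sqrt' (by norm_num)).2 (by linarith)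
          have e6 : (10 : ℝ) ≤ T * T ^ (1 / 2 : ℝ) := by nlinarith
          rw [e3]
          nlinarith
        have h5 : (m.divisors.card : ℝ) ≤ Ce * T ^ (3 * e) := by
          refine (hdiv m hm0).trans (mul_le_mul_of_nonneg_left ?_ (by linarith))
          rw [Real.rpow_mul hT0.le]
          exact Real.rpow_le_rpow (by positivity) h4 he.le
        have h6 := mul_nonneg (aa_nonneg m) (WF_nonneg Δ L m)
        rw [mul_assoc]
        exact mul_le_mul_of_nonneg_right h5 h6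
      refine (Finset.sum_le_sum h3).trans ?_
      rw [← Finset.mul_sum]
      exact mul_le_mul_of_nonneg_left h2 (by positivity))
  refine h1.trans (mul_le_mul_of_nonneg_right (nblocks he hT hN0 hN) (by positivity))




theorem fmz (hz : S_ZAP) (hb : S_BOH) : S_FMZ := by
  intro k δ κ hδ hκ
  obtain ⟨κ', hκ0, hκκ, hκδ, hκ1⟩ : ∃ κ' : ℝ, 0 < κ' ∧ κ' ≤ κ ∧ κ' ≤ δ / 2 ∧ κ' ≤ 1 :=
    ⟨min κ (min (δ / 2) 1), lt_min hκ (lt_min (by positivity) one_pos), min_le_left _ _,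
      (min_le_right _ _).trans (min_le_left _ _), (min_le_right _ _).trans (min_le_right _ _)⟩
  obtain ⟨η, CB, hη, hCB, hboh⟩ := hb k (δ / 2) (κ' / 4) (by positivity) (by positivity)
  obtain ⟨CZ, hCZ, hzap⟩ := hz
  obtain ⟨Ce, hCe, hdiv⟩ := Pool.Agent.H505R2.div_bound (δ := η / 10) (by positivity)
  obtain ⟨C1, hC1, h1⟩ := big 2 (a := κ' / 4) (by positivity)
  obtain ⟨C2, hC2, h2⟩ := big (2 ^ k) (a := δ / 2) (by positivity)
  obtain ⟨C3, hC3, h3⟩ := big 5 (a := δ / 4) (by positivity)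
  obtain ⟨C4, hC4, h4⟩ := big (8 * CZ) (a := 1 / 4) (by positivity)
  obtain ⟨C5, hC5, h5⟩ := big (4 * ((1 + 2 / (η / 10)) * Ce * CB)) (a := η / 2) (by positivity)
  obtain ⟨C6, hC6, h6⟩ := big (4 * 2 ^ k) (a := 3 * κ' / 4) (by positivity)
  refine ⟨5 + C1 + C2 + C3 + C4 + C5 + C6, by linarith, ?_⟩
  intro T D F hT hF hFT hsep hDF hTF
  have hT5 : 5 ≤ T := by linarith
  have hT0 : 0 < T := by linarith
  have hT1 : 1 ≤ T := by linarith
  replace h1 := h1 T (by linarith)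
  replace h2 := h2 T (by linarith)
  replace h3 := h3 T (by linarith)
  replace h4 := h4 T (by linarith)
  replace h5 := h5 T (by linarith)
  replace h6 := h6 T (by linarith)
  clear hT
  have h2k : (0 : ℝ) < 2 ^ k := by positivity
  have hF1r : (1 : ℝ) < F.card :=
    lt_of_lt_of_le (Real.one_lt_rpow (by linarith) (by positivity)) hTF
  have hF1 : 1 < F.card := by exact_mod_cast hF1r
  obtain ⟨t₀, Δ, J, hJ, hin, hinj, hcard⟩ := gap_param hF hF1.le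
  obtain ⟨L, hL⟩ : ∃ L : Fin k → ℕ, ∀ i, 1 ≤ L i ∧ 2 * L i - 1 ≤ J i ∧ J i ≤ 2 * L i :=
    ⟨fun i => (J i + 1) / 2, fun i => by have := hJ i; beta_reduce; omega⟩
  obtain ⟨Lam, hLam⟩ : ∃ Lam, Lam = ∏ i, (L i : ℝ) := ⟨_, rfl⟩
  have hLF : (F.card : ℝ) ≤ 2 ^ k * Lam := by
    rw [hcard, hLam]
    have e1 : (2 : ℝ) ^ k * ∏ i : Fin k, (L i : ℝ) = ∏ i : Fin k, (2 * (L i : ℝ)) := by
      rw [Finset.prod_mul_distrib]; simp
    rw [e1]
    exact Finset.prod_le_prod (fun i _ => by positivity) fun i _ => by exact_mod_cast (hL i).2.2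
  have hA : T ^ (1 / 2 + δ / 2) ≤ Lam := by
    have e1 : T ^ (1 / 2 + δ) = T ^ (δ / 2) * T ^ (1 / 2 + δ / 2) := by
      rw [← Real.rpow_add hT0]; congr 1; ring
    have e2 : 2 ^ k * T ^ (1 / 2 + δ / 2) ≤ 2 ^ k * Lam :=
      calc 2 ^ k * T ^ (1 / 2 + δ / 2) ≤ T ^ (δ / 2) * T ^ (1 / 2 + δ / 2) :=
            mul_le_mul_of_nonneg_right h2 (by positivity)
        _ = T ^ (1 / 2 + δ) := e1.symm
        _ ≤ _ := hTF.trans hLF
    exact le_of_mul_le_mul_left e2 h2k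
  have hLam0 : 0 < Lam := lt_of_lt_of_le (by positivity) hA
  -- the distance
  obtain ⟨D', hD'⟩ : ∃ D', D' = min D T := ⟨_, rfl⟩
  have hsep' : ∀ t ∈ F, ∀ u ∈ F, t ≠ u → 1 ≤ |t - u| ∧ |t - u| ≤ D' := by
    intro t ht u hu htu
    refine ⟨(hsep t ht u hu htu).1, ?_⟩
    rw [hD']
    refine le_min (hsep t ht u hu htu).2 ?_
    rw [abs_le]
    have a1 := hFT t ht
    have a2 := hFT u hu
    constructor <;> linarith
  have hD'1 : 1 ≤ D' := by
    obtain ⟨t, ht, u, hu, htu⟩ := Finset.one_lt_card.1 hF1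
    have := hsep' t ht u hu htu
    linarith
  have hD'T : D' ≤ T := by rw [hD']; exact min_le_right _ _
  have hDD : D' ≤ D := by rw [hD']; exact min_le_left _ _
  have hB : D' ^ (2 / 3 : ℝ) * T ^ (δ / 2) ≤ Lam := by
    have e0 : D' ^ (2 / 3 : ℝ) ≤ D ^ (2 / 3 : ℝ) :=
      Real.rpow_le_rpow (by linarith) hDD (by norm_num)
    have e1 : T ^ δ = T ^ (δ / 2) * T ^ (δ / 2) := by
      rw [← Real.rpow_add hT0]; congr 1; ring
    have e2 : 2 ^ k * (D' ^ (2 / 3 : ℝ) * T ^ (δ / 2)) ≤ 2 ^ k * Lam :=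
      calc 2 ^ k * (D' ^ (2 / 3 : ℝ) * T ^ (δ / 2)) ≤
            T ^ (δ / 2) * (D ^ (2 / 3 : ℝ) * T ^ (δ / 2)) :=
            mul_le_mul h2 (mul_le_mul_of_nonneg_right e0 (by positivity))
              (by positivity) (by positivity)
        _ = D ^ (2 / 3 : ℝ) * T ^ δ := by rw [e1]; ring
        _ ≤ _ := hDF.trans hLF
    exact le_of_mul_le_mul_left e2 h2k
  have hSZ : SepZ Δ L D' := sepz hin hinj (fun i => by have := hL i; omega) hsep'
  -- the length of the mollifier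
  obtain ⟨y, hy⟩ : ∃ y : ℕ, y = ⌊T ^ (κ' / 2)⌋₊ := ⟨_, rfl⟩
  have hk2 : T ^ (κ' / 2) = T ^ (κ' / 4) * T ^ (κ' / 4) := by
    rw [← Real.rpow_add hT0]; congr 1; ring
  have hyle : (y : ℝ) ≤ T ^ (κ' / 2) := by rw [hy]; exact Nat.floor_le (by positivity)
  have hyge : T ^ (κ' / 4) ≤ y := by
    have := Nat.lt_floor_add_one (T ^ (κ' / 2))
    rw [← hy] at this
    nlinarith
  have hy1 : 1 ≤ y := by
    have : (1 : ℝ) ≤ y := by linarith
    exact_mod_cast this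
  have hyhalf : (y : ℝ) ≤ T ^ (1 / 2 : ℝ) :=
    hyle.trans (Real.rpow_le_rpow_of_exponent_le hT1 (by linarith))
  obtain ⟨N, hN⟩ : ∃ N : ℕ, N = ⌈4 * T⌉₊ := ⟨_, rfl⟩
  have hNge : 4 * T ≤ N := by rw [hN]; exact Nat.le_ceil _
  have hNle : (N : ℝ) ≤ 5 * T := by
    have := Nat.ceil_lt_add_one (a := 4 * T) (by linarith)
    rw [← hN] at this
    linarith
  have hN1 : 1 ≤ N := by
    have : (1 : ℝ) ≤ N := by linarith
    exact_mod_cast this
  have hyN : y ≤ N := by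
    have : (y : ℝ) ≤ N := by
      have e1 : T ^ (1 / 2 : ℝ) ≤ T ^ (1 : ℝ) :=
        Real.rpow_le_rpow_of_exponent_le hT1 (by norm_num)
      rw [Real.rpow_one] at e1
      linarith
    exact_mod_cast this
  -- the mean over the blocks
  have hblk : ∀ i, 2 ^ i ≤ N → ∑ n ∈ Ioc (2 ^ i * y) (2 * (2 ^ i * y)), WF Δ L n ≤
      (CB * Lam * T ^ (-η)) * ((2 ^ i * y : ℕ) : ℝ) ^ (1 / 2 : ℝ) := by
    intro i hi
    have b1 : T ^ (κ' / 4) ≤ ((2 ^ i * y : ℕ) : ℝ) := by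
      have e1 : (1 : ℝ) ≤ 2 ^ i := one_le_pow₀ (by norm_num)
      push_cast
      have e2 : (0 : ℝ) ≤ y := by positivity
      nlinarith
    have b2 : ((2 ^ i * y : ℕ) : ℝ) ≤ Lam ^ 2 * T ^ (-(δ / 2)) := by
      have a1 : ((2 ^ i * y : ℕ) : ℝ) ≤ N * y := by exact_mod_cast Nat.mul_le_mul_right y hi
      have a2 : (N : ℝ) * y ≤ 5 * T * T ^ (κ' / 2) :=
        mul_le_mul hNle hyle (by positivity) (by positivity)
      have a3 : T ^ (κ' / 2) ≤ T ^ (δ / 4) :=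
        Real.rpow_le_rpow_of_exponent_le hT1 (by linarith)
      have a4 : 5 * T * T ^ (κ' / 2) ≤ T ^ (δ / 4) * T * T ^ (δ / 4) :=
        mul_le_mul (mul_le_mul_of_nonneg_right h3 hT0.le) a3 (by positivity) (by positivity)
      have a5 : T ^ (δ / 4) * T * T ^ (δ / 4) = (T ^ (1 / 2 + δ / 2)) ^ 2 * T ^ (-(δ / 2)) := by
        have c1 : T ^ (δ / 4) * T * T ^ (δ / 4) = T ^ (δ / 4 + 1 + δ / 4) := by
          rw [Real.rpow_add hT0, Real.rpow_add hT0, Real.rpow_one]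
        rw [c1, sq, ← Real.rpow_add hT0, ← Real.rpow_add hT0]
        congr 1
        ring
      have a6 : (T ^ (1 / 2 + δ / 2)) ^ 2 ≤ Lam ^ 2 := pow_le_pow_left₀ (by positivity) hA 2
      have a7 := mul_le_mul_of_nonneg_right a6 (by positivity : (0 : ℝ) ≤ T ^ (-(δ / 2)))
      linarith
    have e1 := hboh T D' Δ L hD'1 hD'T (fun i => (hL i).1) hSZ (by rw [← hLam]; exact hA)
      (by rw [← hLam]; exact hB) (2 ^ i * y) b1 (by rw [← hLam]; exact b2)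
    rw [← hLam] at e1
    refine e1.trans (le_of_eq ?_)
    ring
  have hBb := Bbound Δ L (e := η / 10) (T := T) (by positivity) hCe hT5 hN1 hNle hy1 hyhalf
    (b0 := CB * Lam * T ^ (-η)) (by positivity) hdiv hblk
  have hB4 : (1 + 2 / (η / 10)) * T ^ (2 * (η / 10)) *
      (Ce * T ^ (3 * (η / 10)) * (CB * Lam * T ^ (-η))) ≤ Lam / 4 := by
    obtain ⟨X, hX⟩ : ∃ X, X = T ^ (2 * (η / 10)) * T ^ (3 * (η / 10)) * T ^ (-η) := ⟨_, rfl⟩
    have hX0 : 0 < X := by rw [hX]; positivity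
    have e1 : X * T ^ (η / 2) = 1 := by
      rw [hX, ← Real.rpow_add hT0, ← Real.rpow_add hT0, ← Real.rpow_add hT0,
        show 2 * (η / 10) + 3 * (η / 10) + -η + η / 2 = (0 : ℝ) by ring, Real.rpow_zero]
    have e2 : (1 + 2 / (η / 10)) * T ^ (2 * (η / 10)) *
        (Ce * T ^ (3 * (η / 10)) * (CB * Lam * T ^ (-η))) =
        ((1 + 2 / (η / 10)) * Ce * CB) * X * Lam := by rw [hX]; ring
    rw [e2]
    have e3 : 4 * ((1 + 2 / (η / 10)) * Ce * CB) * X ≤ 1 := by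
      refine (mul_le_mul_of_nonneg_right h5 hX0.le).trans (le_of_eq ?_)
      rw [mul_comm]
      exact e1
    have e4 := mul_le_mul_of_nonneg_right e3 hLam0.le
    linarith
  have hBb' := hBb.trans hB4
  -- the approximation
  obtain ⟨tc, htc⟩ : ∃ tc, tc = t₀ + fr Δ (fun i => L i - 1) := ⟨_, rfl⟩
  have hzz : ∀ x ∈ PL L, ∀ z ∈ PL L, ‖riemannZeta (1 / 2 + (tp Δ tc x z : ℝ) * Complex.I) -
      ∑ n ∈ Icc 1 N, (n : ℂ) ^ (-(1 / 2 + (tp Δ tc x z : ℝ) * Complex.I))‖ ≤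
        CZ * T ^ (-(1 / 2) : ℝ) := by
    intro x hx z hz
    have a1 : tp Δ tc x z ∈ F := by rw [htc]; exact tp_mem hin (fun i => (hL i).2.1) hx hz
    have a2 := hFT _ a1
    refine (hzap _ N (by linarith) (by linarith) (by linarith)).trans ?_
    exact mul_le_mul_of_nonneg_left (Real.rpow_le_rpow_of_nonpos hT0 a2.1 (by norm_num)) hCZ.le
  have hlow := lower Δ L (fun i => (hL i).1) tc N y hy1 hyN _ hzz _ hBb'
  have hupp := upper hin hinj (fun i => (hL i).2.1) y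
  rw [← htc] at hupp
  rw [← hLam] at hlow hupp
  obtain ⟨Sig, hSig⟩ : ∃ Sig, Sig = ∑ t ∈ F, ‖riemannZeta (1 / 2 + t * Complex.I)‖ := ⟨_, rfl⟩
  have hSig0 : 0 ≤ Sig := by rw [hSig]; exact Finset.sum_nonneg fun _ _ => norm_nonneg _
  rw [← hSig] at hupp ⊢
  have hsq : Real.sqrt y ≤ T ^ (κ' / 4) := by
    rw [Real.sqrt_le_left (by positivity), sq, ← hk2]
    exact hyle
  have hsq0 : 0 ≤ Real.sqrt y := Real.sqrt_nonneg _
  have hEr : CZ * T ^ (-(1 / 2) : ℝ) * (2 * Real.sqrt y) ≤ 1 / 4 := by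
    have a1 : T ^ (κ' / 4) ≤ T ^ (1 / 4 : ℝ) :=
      Real.rpow_le_rpow_of_exponent_le hT1 (by linarith)
    have a2 : T ^ (-(1 / 2) : ℝ) * (T ^ (1 / 4 : ℝ) * T ^ (1 / 4 : ℝ)) = 1 := by
      rw [← Real.rpow_add hT0, ← Real.rpow_add hT0]
      norm_num
    have a3 : 8 * CZ * Real.sqrt y ≤ T ^ (1 / 4 : ℝ) * T ^ (1 / 4 : ℝ) :=
      mul_le_mul h4 (hsq.trans a1) hsq0 (by positivity)
    have a4 := mul_le_mul_of_nonneg_left a3 (by positivity : (0 : ℝ) ≤ T ^ (-(1 / 2) : ℝ))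
    rw [a2] at a4
    linarith
  -- conclusion
  have g1 : Lam * Lam * (CZ * T ^ (-(1 / 2) : ℝ) * (2 * Real.sqrt y)) ≤ Lam * Lam * (1 / 4) :=
    mul_le_mul_of_nonneg_left hEr (by positivity)
  have g2 : Lam * (2 * Real.sqrt y * Sig) ≤ Lam * (2 * T ^ (κ' / 4) * Sig) :=
    mul_le_mul_of_nonneg_left (mul_le_mul_of_nonneg_right (by linarith) hSig0) hLam0.le
  have g3 : Lam * Lam ≤ Lam * (4 * T ^ (κ' / 4) * Sig) := by linarith
  have g4 : Lam ≤ 4 * T ^ (κ' / 4) * Sig := le_of_mul_le_mul_left g3 hLam0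
  have g5 : (F.card : ℝ) ≤ T ^ κ' * Sig := by
    have e1 : T ^ κ' = T ^ (3 * κ' / 4) * T ^ (κ' / 4) := by
      rw [← Real.rpow_add hT0]; congr 1; ring
    have e2 : 4 * 2 ^ k * (T ^ (κ' / 4) * Sig) ≤ T ^ (3 * κ' / 4) * (T ^ (κ' / 4) * Sig) :=
      mul_le_mul_of_nonneg_right h6 (by positivity)
    have e3 := mul_le_mul_of_nonneg_left g4 h2k.le
    rw [e1]
    linarith
  have g6 : T ^ (-κ) ≤ T ^ (-κ') := Real.rpow_le_rpow_of_exponent_le hT1 (by linarith)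
  have g7 : T ^ (-κ') * T ^ κ' = 1 := by
    rw [← Real.rpow_add hT0, neg_add_cancel, Real.rpow_zero]
  calc (F.card : ℝ) * T ^ (-κ) ≤ (F.card : ℝ) * T ^ (-κ') :=
        mul_le_mul_of_nonneg_left g6 (by positivity)
    _ ≤ (T ^ κ' * Sig) * T ^ (-κ') := mul_le_mul_of_nonneg_right g5 (by positivity)
    _ = (T ^ (-κ') * T ^ κ') * Sig := by ring
    _ = Sig := by rw [g7, one_mul]

end Pool.Agent.Z864.R9
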